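import Mathlib

set_option autoImplicit false

/-!
# Square integrable solutions of `a (x) g (x) = b (x) g (x - 1)`
-/

namespace Pool.Agent.Run7.h325.HRT

open MeasureTheory Set
open scoped ENNReal

noncomputable section

/-- the cocycle -/
def Gc (F : ℝ → ℂ) (x : ℝ) : ℤ → ℂ
  | Int.ofNat n => ∏ k ∈ Finset.range n, F (x + k + 1)
  | Int.negSucc n => ∏ k ∈ Finset.range (n + 1), (F (x - k))⁻¹

lemma Gc_zero (F : ℝ → ℂ) (x : ℝ) : Gc F x 0 = 1 := by
  show Gc F x (Int.ofNat 0) = 1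
  simp [Gc]

lemma Gc_rec (F : ℝ → ℂ) (x : ℝ) (hF : ∀ n : ℤ, F (x + n) ≠ 0) (n : ℤ) :
    Gc F x n = F (x + n) * Gc F x (n - 1) := by
  cases n with
  | ofNat n =>
    cases n with
    | zero =>
      have h1 : (Int.ofNat 0 - 1 : ℤ) = Int.negSucc 0 := rfl
      rw [h1]
      have h2 : F x ≠ 0 := by simpa using hF 0
      simp [Gc, h2]
    | succ n =>
      have h1 : (Int.ofNat (n + 1) - 1 : ℤ) = Int.ofNat n := by
        simp
      rw [h1]
      simp only [Gc]
      rw [Finset.prod_range_succ, mul_comm]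
      congr 2
      simp [add_assoc]
  | negSucc n =>
    have h1 : (Int.negSucc n - 1 : ℤ) = Int.negSucc (n + 1) := rfl
    rw [h1]
    simp only [Gc]
    rw [Finset.prod_range_succ _ (n + 1)]
    have h2 : F (x + (Int.negSucc n : ℤ)) = F (x - ((n + 1 : ℕ) : ℝ)) := by
      congr 1
      rw [Int.negSucc_eq]
      push_cast
      ring
    have h3 : F (x - ((n + 1 : ℕ) : ℝ)) ≠ 0 := by
      rw [← h2]; exact hF _
    rw [h2, mul_comm, mul_assoc, inv_mul_cancel₀ h3, mul_one]

lemma measurable_Gc {F : ℝ → ℂ} (hF : Measurable F) (n : ℤ) : Measurable fun x => Gc F x n := by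
  cases n with
  | ofNat n =>
    simp only [Gc]
    exact Finset.measurable_prod _ fun k _ => hF.comp (by fun_prop)
  | negSucc n =>
    simp only [Gc]
    exact Finset.measurable_prod _ fun k _ => (hF.comp (by fun_prop)).inv

/-- the sum of squares -/
def Vc (F : ℝ → ℂ) (x : ℝ) : ℝ≥0∞ := ∑' n : ℤ, ‖Gc F x n‖ₑ ^ 2

lemma measurable_Vc {F : ℝ → ℂ} (hF : Measurable F) : Measurable (Vc F) := by
  unfold Vc
  exact Measurable.ennreal_tsum fun n => ((measurable_Gc hF n).enorm).pow_const 2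

/-- the weight -/
def hc (F : ℝ → ℂ) (x : ℝ) : ℝ := ((1 + Vc F x)⁻¹).toReal

/-- the solution -/
def gc (F : ℝ → ℂ) (y : ℝ) : ℂ := (hc F (Int.fract y) : ℂ) * Gc F (Int.fract y) ⌊y⌋

lemma measurable_gc {F : ℝ → ℂ} (hF : Measurable F) : Measurable (gc F) := by
  unfold gc
  have h1 : Measurable fun p : ℝ × ℤ => Gc F p.1 p.2 :=
    measurable_from_prod_countable_left fun n => measurable_Gc hF n
  have h2 : Measurable fun y : ℝ => (Int.fract y, ⌊y⌋) :=
    measurable_fract.prodMk Int.measurable_floor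
  have h3 : Measurable (hc F) := by
    unfold hc
    exact ((measurable_const.add (measurable_Vc hF)).inv).ennreal_toReal
  exact (Complex.measurable_ofReal.comp (h3.comp measurable_fract)).mul (h1.comp h2)

lemma enorm_hc_le (F : ℝ → ℂ) (x : ℝ) : ‖(hc F x : ℂ)‖ₑ ≤ (1 + Vc F x)⁻¹ := by
  have h1 : ‖(hc F x : ℂ)‖ₑ = ENNReal.ofReal (hc F x) := by
    rw [← ofReal_norm_eq_enorm]
    congr 1
    rw [Complex.norm_real, Real.norm_of_nonneg]
    exact ENNReal.toReal_nonneg
  rw [h1]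
  exact ENNReal.ofReal_toReal_le

lemma lintegral_gc_le {F : ℝ → ℂ} (hF : Measurable F) : ∫⁻ y, ‖gc F y‖ₑ ^ 2 ≤ 1 := by
  have hm : Measurable fun y => ‖gc F y‖ₑ ^ 2 := ((measurable_gc hF).enorm).pow_const 2
  have h0 : ∫⁻ y, ‖gc F y‖ₑ ^ 2 = ∑' n : ℤ, ∫⁻ y in Ico (n : ℝ) (n + 1), ‖gc F y‖ₑ ^ 2 := by
    rw [← setLIntegral_univ, ← iUnion_Ico_intCast ℝ,
      lintegral_iUnion (fun n => measurableSet_Ico) (pairwise_disjoint_Ico_intCast ℝ)]
  rw [h0]
  have h1 : ∀ n : ℤ, ∫⁻ y in Ico (n : ℝ) (n + 1), ‖gc F y‖ₑ ^ 2 =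
      ∫⁻ x in Ico (0 : ℝ) 1, ‖(hc F x : ℂ)‖ₑ ^ 2 * ‖Gc F x n‖ₑ ^ 2 := by
    intro n
    have hmp : MeasurePreserving (fun x : ℝ => x + (n : ℝ)) volume volume :=
      measurePreserving_add_right volume (n : ℝ)
    have hpre : (fun x : ℝ => x + (n : ℝ)) ⁻¹' Ico (n : ℝ) (n + 1) = Ico 0 1 := by
      ext x
      simp only [mem_preimage, mem_Ico]
      constructor
      · rintro ⟨h1, h2⟩; constructor <;> linarith
      · rintro ⟨h1, h2⟩; constructor <;> linarith
    rw [← hmp.setLIntegral_comp_preimage measurableSet_Ico hm, hpre]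
    refine setLIntegral_congr_fun measurableSet_Ico fun x hx => ?_
    have hfl : ⌊x⌋ = 0 := Int.floor_eq_zero_iff.mpr hx
    have hfr : Int.fract x = x := Int.fract_eq_self.mpr ⟨hx.1, hx.2⟩
    simp only [gc, Int.fract_add_intCast, Int.floor_add_intCast, hfl, hfr, zero_add]
    rw [enorm_mul, mul_pow]
  simp_rw [h1]
  rw [← lintegral_tsum]
  · calc ∫⁻ x in Ico (0 : ℝ) 1, ∑' n : ℤ, ‖(hc F x : ℂ)‖ₑ ^ 2 * ‖Gc F x n‖ₑ ^ 2
        ≤ ∫⁻ x in Ico (0 : ℝ) 1, 1 := by
          refine lintegral_mono fun x => ?_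
          rw [ENNReal.tsum_mul_left]
          change ‖(hc F x : ℂ)‖ₑ ^ 2 * Vc F x ≤ 1
          have h2 := enorm_hc_le F x
          have h3 : ‖(hc F x : ℂ)‖ₑ ≤ 1 := h2.trans (by simp)
          calc ‖(hc F x : ℂ)‖ₑ ^ 2 * Vc F x
              = ‖(hc F x : ℂ)‖ₑ * (‖(hc F x : ℂ)‖ₑ * Vc F x) := by ring
            _ ≤ 1 * ((1 + Vc F x)⁻¹ * (1 + Vc F x)) := by
                gcongr
                exact le_add_self
            _ ≤ 1 := by
                rw [one_mul]
                exact ENNReal.inv_mul_le_one _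
      _ = 1 := by simp
  · intro n
    have h3 : Measurable (hc F) := by
      unfold hc
      exact ((measurable_const.add (measurable_Vc hF)).inv).ennreal_toReal
    exact ((((Complex.measurable_ofReal.comp h3).enorm).pow_const 2).mul
      (((measurable_Gc hF n).enorm).pow_const 2)).aemeasurable

lemma memLp_gc {F : ℝ → ℂ} (hF : Measurable F) : MemLp (gc F) 2 volume := by
  refine ⟨(measurable_gc hF).aestronglyMeasurable, ?_⟩
  rw [eLpNorm_lt_top_iff_lintegral_rpow_enorm_lt_top (by norm_num) (by norm_num)]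
  have h := lintegral_gc_le hF
  refine lt_of_le_of_lt (le_of_eq ?_) (lt_of_le_of_lt h ENNReal.one_lt_top)
  refine lintegral_congr fun y => ?_
  simp

/-- Existence of a nonzero square integrable solution. -/
theorem exists_L2 (a b : ℝ → ℂ) (ha : Measurable a) (hb : Measurable b)
    (hne : ∀ᵐ y : ℝ, ∀ n : ℤ, a (y + n) ≠ 0 ∧ b (y + n) ≠ 0)
    (hdec : ∀ᵐ x : ℝ, ∃ n₀ : ℕ, ∀ n : ℕ, n₀ ≤ n →
      ∏ k ∈ Finset.range n, ‖b (x + k + 1) / a (x + k + 1)‖ ≤ ((n : ℝ) ^ 2)⁻¹ ∧
      ∏ k ∈ Finset.range n, ‖b (x - k) / a (x - k)‖⁻¹ ≤ ((n : ℝ) ^ 2)⁻¹) :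
    ∃ g : ℝ → ℂ, MemLp g 2 volume ∧ ¬ (g =ᵐ[volume] 0) ∧
      (fun x => a x * g x - b x * g (x - 1)) =ᵐ[volume] 0 := by
  set F : ℝ → ℂ := fun x => b x / a x with hFdef
  have hF : Measurable F := hb.div ha
  refine ⟨gc F, memLp_gc hF, ?_, ?_⟩
  · -- nonzero
    intro hzero
    have hV : ∀ᵐ x : ℝ, Vc F x < ∞ := by
      filter_upwards [hdec] with x hx
      obtain ⟨n₀, hx⟩ := hx
      have hs : Summable fun n : ℤ => ‖Gc F x n‖ := by
        have hb0 : Summable fun n : ℕ => (((n : ℝ)) ^ 2)⁻¹ := by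
          simpa using Real.summable_nat_pow_inv.mpr (by norm_num : 1 < 2)
        refine Summable.of_nat_of_neg ?_ ?_
        · refine Summable.of_norm_bounded_eventually_nat hb0 ?_
          filter_upwards [Filter.eventually_ge_atTop n₀] with n hn
          have h1 := (hx n hn).1
          have h2 : ‖Gc F x (n : ℤ)‖ = ∏ k ∈ Finset.range n, ‖b (x + k + 1) / a (x + k + 1)‖ := by
            show ‖Gc F x (Int.ofNat n)‖ = _
            simp only [Gc, norm_prod, hFdef]
          rw [norm_norm, h2]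
          exact h1
        · refine Summable.of_norm_bounded_eventually_nat hb0 ?_
          filter_upwards [Filter.eventually_ge_atTop (n₀ + 1)] with n hn
          have h1 := (hx n (by omega)).2
          obtain ⟨j, rfl⟩ : ∃ j, n = j + 1 := ⟨n - 1, by omega⟩
          have h2 : ‖Gc F x (-((j + 1 : ℕ) : ℤ))‖ =
              ∏ k ∈ Finset.range (j + 1), ‖b (x - k) / a (x - k)‖⁻¹ := by
            have : (-((j + 1 : ℕ) : ℤ)) = Int.negSucc j := rfl
            rw [this]
            simp only [Gc, norm_prod, norm_inv, hFdef]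
          rw [norm_norm, h2]
          exact h1
      have hs2 : Summable fun n : ℤ => ‖Gc F x n‖ ^ 2 := by
        refine Summable.of_norm_bounded_eventually hs ?_
        have h3 := hs.tendsto_cofinite_zero
        filter_upwards [h3.eventually (ge_mem_nhds (by norm_num : (0 : ℝ) < 1))] with n hn
        rw [norm_pow, norm_norm]
        have h4 : 0 ≤ ‖Gc F x n‖ := norm_nonneg _
        nlinarith
      have h5 : Vc F x = ∑' n : ℤ, ENNReal.ofReal (‖Gc F x n‖ ^ 2) := by
        unfold Vc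
        refine tsum_congr fun n => ?_
        rw [ENNReal.ofReal_pow (norm_nonneg _), ofReal_norm_eq_enorm]
      rw [h5, ← ENNReal.ofReal_tsum_of_nonneg (fun n => by positivity) hs2]
      exact ENNReal.ofReal_lt_top
    have hae : ∀ᵐ x ∂(volume.restrict (Ico (0 : ℝ) 1)), False := by
      have h1 : ∀ᵐ x ∂(volume.restrict (Ico (0 : ℝ) 1)), x ∈ Ico (0 : ℝ) 1 :=
        ae_restrict_mem measurableSet_Ico
      filter_upwards [h1, ae_restrict_of_ae hV, ae_restrict_of_ae hzero] with x hx hVx hgx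
      have hfl : ⌊x⌋ = 0 := Int.floor_eq_zero_iff.mpr hx
      have hfr : Int.fract x = x := Int.fract_eq_self.mpr ⟨hx.1, hx.2⟩
      simp only [gc, hfl, hfr, Pi.zero_apply, Gc_zero, mul_one] at hgx
      have h2 : hc F x ≠ 0 := by
        unfold hc
        rw [ENNReal.toReal_ne_zero]
        constructor
        · rw [Ne, ENNReal.inv_eq_zero]
          exact ne_of_lt (ENNReal.add_lt_top.mpr ⟨ENNReal.one_lt_top, hVx⟩)
        · rw [Ne, ENNReal.inv_eq_top]
          simp
      exact h2 (by exact_mod_cast hgx)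
    rw [Filter.eventually_false_iff_eq_bot, ae_eq_bot, Measure.restrict_eq_zero] at hae
    simp at hae
  · filter_upwards [hne] with y hy
    have hy' : ∀ n : ℤ, F (Int.fract y + n) ≠ 0 := by
      intro n
      have h1 := hy (n - ⌊y⌋)
      have h2 : y + ((n - ⌊y⌋ : ℤ) : ℝ) = Int.fract y + n := by
        rw [Int.fract]; push_cast; ring
      rw [h2] at h1
      exact div_ne_zero h1.2 h1.1
    have h1 := Gc_rec F (Int.fract y) hy' ⌊y⌋
    have h2 : Int.fract y + (⌊y⌋ : ℝ) = y := Int.fract_add_floor y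
    rw [h2] at h1
    have h3 : a y ≠ 0 := by simpa using (hy 0).1
    have h4 : Int.fract (y - 1) = Int.fract y := by
      simp
    have h5 : ⌊y - 1⌋ = ⌊y⌋ - 1 := by simp
    have hFy : a y * F y = b y := by
      simp only [hFdef]
      field_simp
    simp only [gc, h4, h5, Pi.zero_apply]
    rw [h1]
    linear_combination ((hc F (Int.fract y) : ℂ) * Gc F (Int.fract y) (⌊y⌋ - 1)) * hFy

end

end Pool.Agent.Run7.h325.HRT
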