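import Pool.Agent.Run7.h325.HRT.Stm
import Pool.Agent.Run7.h325.HRT.L2gen

set_option autoImplicit false

/-!
# The piece `L2`
-/

namespace Pool.Agent.Run7.h325.HRT

open MeasureTheory Set

noncomputable section

lemma measurable_w (A : ℝ) : Measurable (w A) := by
  unfold w
  fun_prop

lemma measurable_pa : Measurable pa := by
  unfold pa
  refine Finset.measurable_prod _ fun m _ => ?_
  exact measurable_const.add (measurable_const.mul ((measurable_w _).comp (by fun_prop)))

lemma measurable_pb : Measurable pb := by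
  unfold pb
  refine Finset.measurable_prod _ fun m _ => ?_
  exact measurable_const.sub (measurable_const.mul ((measurable_w _).comp (by fun_prop)))

lemma away_of_good {x : ℝ} (h1 : Good x) (h2 : Good (-x)) (n : ℤ) :
    ∃ δ : ℝ, 0 < δ ∧ ∀ p : ℤ, δ ≤ |D * (x + n - 1 / 2) - p| := by
  rcases lt_or_ge 0 n with hn | hn
  · obtain ⟨c, hc, h⟩ := h1
    obtain ⟨k, hk⟩ : ∃ k : ℕ, n = k + 1 := ⟨(n - 1).toNat, by omega⟩
    refine ⟨c / ((k : ℝ) + 1) ^ 2, by positivity, fun p => ?_⟩
    have h3 := h k p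
    have h4 : x + (n : ℝ) - 1 / 2 = x + k + 1 / 2 := by
      rw [hk]; push_cast; ring
    rw [h4]; exact h3
  · obtain ⟨c, hc, h⟩ := h2
    obtain ⟨k, hk⟩ : ∃ k : ℕ, n = -(k : ℤ) := ⟨(-n).toNat, by omega⟩
    refine ⟨c / ((k : ℝ) + 1) ^ 2, by positivity, fun p => ?_⟩
    have h3 := h k (-p)
    have h4 : D * (x + (n : ℝ) - 1 / 2) - p = -(D * (-x + k + 1 / 2) - ((-p : ℤ) : ℝ)) := by
      rw [hk]; push_cast; ring
    rw [h4, abs_neg]; exact h3

lemma w_lt_one (hW : S_WNORM) (hA : S_APROP) {m : ℕ} (hm : 1 ≤ m) {t : ℝ}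
    (h : ∃ δ : ℝ, 0 < δ ∧ ∀ p : ℤ, δ ≤ |D * t - p|) : ‖w (Am m) t‖ < 1 := by
  obtain ⟨δ, hδ, hp⟩ := h
  obtain ⟨a1, a2, -⟩ := hA m hm
  have h1 := (hW (Am m) t a1 (by linarith)).2.1 δ hδ.le hp
  have h2 : 0 < 8 * Am m * (1 - Am m) * δ ^ 2 := by
    have : 0 < 1 - Am m := by linarith
    positivity
  linarith

lemma one_add_ne {z : ℂ} (hz : ‖z‖ < 1) : 1 + Complex.I * z ≠ 0 := by
  intro h
  have h1 : Complex.I * z = -1 := by linear_combination h
  have h2 : ‖Complex.I * z‖ = 1 := by rw [h1]; simp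
  rw [norm_mul, Complex.norm_I, one_mul] at h2
  linarith

lemma one_sub_ne {z : ℂ} (hz : ‖z‖ < 1) : 1 - Complex.I * z ≠ 0 := by
  intro h
  have h1 : Complex.I * z = 1 := by linear_combination -h
  have h2 : ‖Complex.I * z‖ = 1 := by rw [h1]; simp
  rw [norm_mul, Complex.norm_I, one_mul] at h2
  linarith

lemma exp_phi {A t : ℝ} (h : ‖w A t‖ < 1) :
    Real.exp (phi A t) = ‖1 - Complex.I * w A t‖ / ‖1 + Complex.I * w A t‖ := by
  have h1 : 0 < ‖1 - Complex.I * w A t‖ := norm_pos_iff.mpr (one_sub_ne h)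
  have h2 : 0 < ‖1 + Complex.I * w A t‖ := norm_pos_iff.mpr (one_add_ne h)
  rw [phi, Real.exp_sub, Real.exp_log h1, Real.exp_log h2]

lemma norm_quot {y : ℝ} (h : ∀ m ∈ Finset.Icc 128 131072, ‖w (Am m) (y - 1 / 2)‖ < 1) :
    ‖pb y / pa y‖ = Real.exp (∑ m ∈ Finset.Icc 128 131072, phi (Am m) (y - 1 / 2)) := by
  rw [Real.exp_sum, norm_div, pb, pa, norm_prod, norm_prod, ← Finset.prod_div_distrib]
  refine Finset.prod_congr rfl fun m hm => ?_
  rw [exp_phi (h m hm)]

/-- The piece `L2`. -/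
theorem t_L2 (hW : S_WNORM) (hA : S_APROP) (hG : S_GOOD) (hF : S_FINAL) : S_L2 := by
  refine exists_L2 pa pb measurable_pa measurable_pb ?_ ?_
  · filter_upwards [hG] with y hy n
    have h1 : ∀ m ∈ Finset.Icc 128 131072, ‖w (Am m) (y + n - 1 / 2)‖ < 1 := fun m hm =>
      w_lt_one hW hA (by have := (Finset.mem_Icc.mp hm).1; omega) (away_of_good hy.1 hy.2 n)
    constructor
    · rw [pa, Finset.prod_ne_zero_iff]
      intro m hm
      exact one_add_ne (h1 m hm)
    · rw [pb, Finset.prod_ne_zero_iff]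
      intro m hm
      exact one_sub_ne (h1 m hm)
  · filter_upwards [hG] with x hx
    obtain ⟨n₁, hn₁⟩ := hF x hx.1
    obtain ⟨n₂, hn₂⟩ := hF (-x) hx.2
    refine ⟨max (max n₁ n₂) 1, fun n hn => ?_⟩
    have hn1 : n₁ ≤ n := le_trans (le_trans (le_max_left _ _) (le_max_left _ _)) hn
    have hn2 : n₂ ≤ n := le_trans (le_trans (le_max_right _ _) (le_max_left _ _)) hn
    have hn3 : 1 ≤ n := le_trans (le_max_right _ _) hn
    have hnpos : (0 : ℝ) < n := by exact_mod_cast hn3
    have hexp : Real.exp (-2 * Real.log n) = ((n : ℝ) ^ 2)⁻¹ := by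
      have : -2 * Real.log n = Real.log (((n : ℝ) ^ 2)⁻¹) := by
        rw [Real.log_inv, Real.log_pow]; push_cast; ring
      rw [this, Real.exp_log (by positivity)]
    have h1 : ∀ (n : ℤ), ∀ m ∈ Finset.Icc 128 131072, ‖w (Am m) (x + n - 1 / 2)‖ < 1 :=
      fun n m hm =>
        w_lt_one hW hA (by have := (Finset.mem_Icc.mp hm).1; omega) (away_of_good hx.1 hx.2 n)
    constructor
    · rw [← hexp]
      have h2 : ∏ k ∈ Finset.range n, ‖pb (x + k + 1) / pa (x + k + 1)‖ =
          Real.exp (∑ m ∈ Finset.Icc 128 131072, S (Am m) x n) := by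
        unfold S
        rw [Finset.sum_comm, Real.exp_sum]
        refine Finset.prod_congr rfl fun k _ => ?_
        rw [norm_quot]
        · congr 1
          refine Finset.sum_congr rfl fun m _ => ?_
          congr 1
          ring
        · intro m hm
          have h3 := h1 ((k : ℤ) + 1) m hm
          have h4 : x + (((k : ℤ) + 1 : ℤ) : ℝ) - 1 / 2 = x + k + 1 - 1 / 2 := by
            push_cast; ring
          rw [h4] at h3; exact h3
      rw [h2]
      exact Real.exp_le_exp.mpr (hn₁ n hn1)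
    · rw [← hexp]
      have h2 : ∏ k ∈ Finset.range n, ‖pb (x - k) / pa (x - k)‖⁻¹ =
          Real.exp (∑ m ∈ Finset.Icc 128 131072, S (Am m) (-x) n) := by
        unfold S
        rw [Finset.sum_comm, Real.exp_sum]
        refine Finset.prod_congr rfl fun k _ => ?_
        rw [norm_quot]
        · rw [← Real.exp_neg, ← Finset.sum_neg_distrib]
          congr 1
          refine Finset.sum_congr rfl fun m hm => ?_
          have hm1 : 1 ≤ m := by have := (Finset.mem_Icc.mp hm).1; omega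
          obtain ⟨a1, a2, -⟩ := hA m hm1
          rw [← (hW (Am m) (x - k - 1 / 2) a1 (by linarith)).2.2]
          congr 1
          ring
        · intro m hm
          have h3 := h1 (-(k : ℤ)) m hm
          have h4 : x + ((-(k : ℤ) : ℤ) : ℝ) - 1 / 2 = x - k - 1 / 2 := by
            push_cast; ring
          rw [h4] at h3; exact h3
      rw [h2]
      exact Real.exp_le_exp.mpr (hn₂ n hn2)

end

end Pool.Agent.Run7.h325.HRT
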