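import Mathlib

set_option autoImplicit false

/-!
# The HRT conjecture is false: interface (definitions and the statements of the pieces)

Plan.  `D = √2`.  For `A ∈ (0, 1)` let `w A t = A e(( 1 - A) D t) + (1 - A) e(- A D t)`
(`e(s) = exp (2 π i s)`), a trigonometric polynomial in `t` with `‖w‖² = 1 - 4 A (1 - A) sin² (π D t)`.
`phi A t = log ‖1 - i w‖ - log ‖1 + i w‖` is odd in `t` and
`phi A t = ∑_{N odd} (2 (-1)^((N-1)/2) / N) Im (w ^ N)`.  With `A m = ∑_q 5 ^ (-m 1024 ^ q)` and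
`S A x n = ∑_{k < n} phi A (x + k + 1/2)` the terms of `w ^ N` for `N = l 5 ^ (m 1024 ^ q)` are resonant and
contribute `-(K m q L (x + n) - K m q L x)` with `K ≥ 0` large; all other terms are bounded by powers
of the cut-off.  Summing over `128 ≤ m ≤ 131072` the sum tends to `-∞` for `n → ∞`, and the same for
`-x`, i.e. for `n → -∞`.  Hence `a (x) g (x) = b (x) g (x - 1)` has a solution `g ∈ L²`, where
`a = ∏ (1 + i w (x - 1/2))`, `b = ∏ (1 - i w (x - 1/2))`.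
-/

namespace Pool.Agent.Run7.h325.HRT

noncomputable section

open Real

/-- The sampling ratio `√2`. -/
def D : ℝ := Real.sqrt 2

/-- `w A t = A e^{2πi(1-A)Dt} + (1-A) e^{-2πiADt}`. -/
def w (A t : ℝ) : ℂ :=
  (A : ℂ) * Complex.exp (((2 * Real.pi * ((1 - A) * D * t) : ℝ) : ℂ) * Complex.I) +
  ((1 - A : ℝ) : ℂ) * Complex.exp (((-(2 * Real.pi * (A * D * t)) : ℝ) : ℂ) * Complex.I)

/-- `log ‖1 - i w‖ - log ‖1 + i w‖`. -/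
def phi (A t : ℝ) : ℝ :=
  Real.log ‖1 - Complex.I * w A t‖ - Real.log ‖1 + Complex.I * w A t‖

/-- `S A x n = ∑_{k < n} phi A (x + k + 1/2)`. -/
def S (A x : ℝ) (n : ℕ) : ℝ := ∑ k ∈ Finset.range n, phi A (x + k + 1 / 2)

/-- exponents -/
def f (m q : ℕ) : ℕ := m * 1024 ^ q

/-- denominators of the approximations of `A m` -/
def Nq (m q : ℕ) : ℕ := 5 ^ f m q

/-- numerators of the approximations of `A m` -/
def iq (m q : ℕ) : ℕ := ∑ p ∈ Finset.range (q + 1), 5 ^ (f m q - f m p)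

/-- `A m = ∑_q 5 ^ (- m 1024 ^ q)`. -/
def Am (m : ℕ) : ℝ := ∑' q : ℕ, ((5 : ℝ) ^ f m q)⁻¹

/-- `ρ = A m - iq / Nq`. -/
def rho (m q : ℕ) : ℝ := Am m - (iq m q : ℝ) / (Nq m q : ℝ)

/-- `ε = D Nq ρ`. -/
def eps (m q : ℕ) : ℝ := D * (Nq m q : ℝ) * rho m q

/-- `Im (i ^ N)`: this is `0` for even `N`, `1` for `N = 4 p + 1`, `-1` for `N = 4 p + 3`. -/
def sg (N : ℕ) : ℝ := (Complex.I ^ N).im

/-- binomial weight -/
def b (A : ℝ) (N i : ℕ) : ℝ := (N.choose i : ℝ) * A ^ i * (1 - A) ^ (N - i)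

/-- frequency of the `i`-th term of `w ^ N` -/
def th (A : ℝ) (N i : ℕ) : ℝ := ((i : ℝ) - N * A) * D

/-- truncated series of `phi` -/
def phiM (A : ℝ) (M : ℕ) (t : ℝ) : ℝ :=
  ∑ N ∈ Finset.Icc 1 M, 2 / (N : ℝ) * sg N * (w A t ^ N).im

/-- `x` is good: `D (x + k + 1/2)` is not too close to the integers. -/
def Good (x : ℝ) : Prop :=
  ∃ c : ℝ, 0 < c ∧ ∀ (k : ℕ) (p : ℤ), c / ((k : ℝ) + 1) ^ 2 ≤ |D * (x + k + 1 / 2) - p|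

/-- coefficient of the resonance `(l Nq, l iq)` -/
def al (m q l : ℕ) : ℝ :=
  b (Am m) (l * Nq m q) (l * iq m q) / ((l : ℝ) * Nq m q * Real.sin (Real.pi * (l * eps m q)))

/-- the resonant part of level `q`, truncated at `l ≤ L` -/
def K (m q L : ℕ) (y : ℝ) : ℝ :=
  ∑ l ∈ Finset.Icc 1 L, sg l * al m q l * (1 - Real.cos (2 * Real.pi * (l * eps m q * y)))

/-- the admissible `L`: `50 L² Nq⁴ ≤ 5 ^ f (q+1)` and `L Nq ≤ M` -/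
def Adm (m q M L : ℕ) : Prop := 50 * L ^ 2 * (Nq m q) ^ 4 ≤ 5 ^ f m (q + 1) ∧ L * Nq m q ≤ M

instance (m q M : ℕ) : DecidablePred (Adm m q M) := fun _ => by unfold Adm; infer_instance

/-- the greatest admissible `L` -/
def Lf (m q M : ℕ) : ℕ := Nat.findGreatest (Adm m q M) M

/-! ## The pieces -/

/-- **DIO0** (30 lines).  `√2` is badly approximable.  Proof: `|D h - q| |D h + q| = |2 h² - q²| ≥ 1`
(the integer `2 h² - q²` is not zero as `√2` is irrational).  If `|D h - q| < 1` then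
`|D h + q| ≤ 2 |D h| + 1 ≤ 5 |h|` (`2 √2 + 1 < 4`), so `|D h - q| ≥ 1 / (5 |h|)`; otherwise trivial. -/
def S_DIO0 : Prop := ∀ h q : ℤ, h ≠ 0 → 1 / (5 * |(h : ℝ)|) ≤ |D * h - q|

/-- **APROP** (100 lines).  Elementary facts on the numbers `Am m`, `m ≥ 1`.
`rho m q = ∑_{p > q} 5 ^ (- f m p)`, the first term is `5 ^ (- f (q+1))` and the sum is at most
`∑_{r ≥ 0} 5 ^ (- f (q+1) - r)`; `iq ≡ 1 mod 5` as all terms but the last one (`p = q`) are multiples of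
`5` (`f` is strictly increasing); for `q ≥ 1` the term `p = 0` of `iq` is `5 ^ (f q - f 0) ≥ 5 ^ 1023`. -/
def S_APROP : Prop :=
  ∀ m : ℕ, 1 ≤ m → 0 < Am m ∧ Am m ≤ 1 / 4 ∧
    ∀ q : ℕ, ((5 : ℝ) ^ f m (q + 1))⁻¹ < rho m q ∧ rho m q ≤ 5 / 4 * ((5 : ℝ) ^ f m (q + 1))⁻¹ ∧
      iq m q % 5 = 1 ∧ 4 * iq m q ≤ Nq m q ∧ (1 ≤ q → 1000 ≤ iq m q) ∧
      4 * f m q ≤ f m (q + 1) ∧ Nq m q % 4 = 1

/-- **DIO** (150 lines, uses DIO0 and APROP).  Every pair `(N, i)` is resonant or its frequency is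
away from all integers.  Proof.  Let `q` be minimal with `50 N² Nq² ≤ 5 ^ f (q+1)` and
`h = i Nq - N iq` (an integer with `|h| ≤ N Nq`).
(1) If `h = 0` then `Nq ∣ N iq`, `iq` is prime to `5`, so `N = l Nq` and `i = l iq`, and
`50 l² Nq⁴ = 50 N² Nq² ≤ 5 ^ f (q+1)`.
(2) If `h ≠ 0` then `i - N A = h / Nq - N ρ` (`A = iq / Nq + ρ`), so for every integer `p`
`|th - p| ≥ |D h - p Nq| / Nq - D N ρ ≥ 1 / (5 |h| Nq) - D N ρ ≥ 1 / (5 N Nq²) - 1.77 N 5 ^ (- f (q+1))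
≥ 1 / (5 N Nq²) - 1.77 / (50 N Nq²) ≥ 1 / (10 N Nq²)`.
(3) `Nq ≤ C N⁴` with `C = max (2500, 5 ^ f 0)`: clear for `q = 0`; for `q ≥ 1` by minimality
`5 ^ f q < 50 N² Nq(q-1)²` and `Nq(q-1)⁴ = 5 ^ (4 f (q-1)) ≤ 5 ^ f q = Nq`, so
`Nq² < 2500 N⁴ Nq(q-1)⁴ ≤ 2500 N⁴ Nq`.
So the distance is at least `1 / (10 C² N⁹)`. -/
def S_DIO : Prop :=
  ∀ m : ℕ, 1 ≤ m → ∃ c : ℝ, 0 < c ∧ ∀ N i : ℕ, 1 ≤ N → i ≤ N →
    (∃ q l : ℕ, N = l * Nq m q ∧ i = l * iq m q ∧ 50 * l ^ 2 * (Nq m q) ^ 4 ≤ 5 ^ f m (q + 1)) ∨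
    (∀ p : ℤ, c / (N : ℝ) ^ 9 ≤ |th (Am m) N i - p|)

/-- **BIN** (200 lines, uses APROP; Stirling).  For `q ≥ 1` let `N = Nq`, `i = iq`, `j = N - i`
(`i ≥ 1000`, `j ≥ 3 i`), `b_l = b (Am m) (l N) (l i)`.  Then `b_l = β_l γ ^ l` with
`γ = (A N / i) ^ i ((1 - A) N / j) ^ j` and `β_l = C(lN, li) (i ^ i j ^ j / N ^ N) ^ l
= √(N / (2 l i j)) σ(lN) / (σ(li) σ(lj))`, `σ = Stirling.stirlingSeq`.
`γ = (1 + ρ N / i) ^ i (1 - ρ N / j) ^ j ≤ exp (ρ N) exp (- ρ N) = 1` and `γ ≥ 1 - ρ N ≥ 1/2` (Bernoulli).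
`σ` is antitone on `n ≥ 1`, `√π ≤ σ n` (`Stirling.sqrt_pi_le_stirlingSeq`), `σ 1 = e / √2 < 2`, and
`log σ(n+1) - log σ(n+2) ≤ 1 / (4 (n+1)²)` (`Stirling.log_stirlingSeq_sub_log_stirlingSeq_succ`).
(1) `β_(l+2) ≤ β_l`: `√(l / (l+2)) · [σ(li)/σ((l+2)i)] [σ(lj)/σ((l+2)j)] ≤ 1`, since
`σ(li)/σ((l+2)i) ≤ exp (2 i / (4 l² i²)) = exp (1 / (2 l² i))`, and
`√(1 + 2/l) ≥ 1 + 1/(2l) ≥ exp (1/(1000 l²))`.
(2) `β_l √l ≤ 1.01 β_1` as `β_l √l / β_1 = [σ(lN)/σ(N)] [σ(i)/σ(li)] [σ(j)/σ(lj)] ≤ (σ(i)/√π)(σ(j)/√π)`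
and `σ(n) ≤ √π exp (1 / (4 (n-1)))` (sum the last inequality; or use the limit of `σ`).
(3) `β_1 ≥ (√π / 4) √(N / (2 i j)) ≥ (√π/4) √(2 / N) ≥ 1 / (2 N)`. -/
def S_BIN : Prop :=
  ∀ m q : ℕ, 1 ≤ m → 1 ≤ q →
    (∀ l : ℕ, 1 ≤ l → b (Am m) ((l + 2) * Nq m q) ((l + 2) * iq m q) ≤
      b (Am m) (l * Nq m q) (l * iq m q)) ∧
    (∀ l : ℕ, 1 ≤ l → b (Am m) (l * Nq m q) (l * iq m q) * Real.sqrt l ≤
      1.01 * b (Am m) (Nq m q) (iq m q)) ∧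
    1 / (4 * (Nq m q : ℝ)) ≤ b (Am m) (Nq m q) (iq m q)

/-- **PAIR** (120 lines, no dependence).  Proof.  Drop the even `l` (`sg l = 0`).  Pair `l = 4 p + 1`
with `l + 2` (if `l + 2 ≤ L`; a last unpaired `l = 4 p + 1` has a nonnegative term).
`l = 1`: `1 - cos 3θ ≤ 9 (1 - cos θ)`, so the pair is `≥ (a 1 - 9 a 3) (1 - cos θ)`, and
`9 a 3 ≤ 9 · 1.02 · a 1 / (9 √3) < 0.589 a 1`.
`l ≥ 5`: `1 - cos (u + v) ≤ (1 + κ) (1 - cos u) + (1 + 1/κ) (1 - cos v)` for `κ > 0`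
(`1 - cos = 2 sin²` of the half, `|sin (s + t)| ≤ |sin s| + |sin t|`) and `1 - cos 2θ ≤ 4 (1 - cos θ)`,
so with `κ = 4 / l`: `a (l+2) (1 - cos (l+2)θ) ≤ a (l+2) (1 + 4/l) (1 - cos lθ) + (4 + l) a (l+2) (1 - cos θ)
≤ a l (1 - cos lθ) + (4 + l) a (l+2) (1 - cos θ)`.
`(4 + l) a (l+2) ≤ 1.02 a 1 (l+4) / ((l+2)² √(l+2)) ≤ 1.02 a 1 (9/7) (l+2)^(-3/2)`, and with `u = l + 2`
`u^(-3/2) ≤ (1/2) ((u-2)^(-1/2) - (u+2)^(-1/2))` (convexity), which telescopes over `u = 7, 11, 15, …` to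
at most `(1/2) / √5 < 0.2237`; in total `≤ 1.02 · (9/7) · 0.2237 a 1 < 0.294 a 1`.
`1 - 0.589 - 0.294 > 0.1`. -/
def S_PAIR : Prop :=
  ∀ (a : ℕ → ℝ) (L : ℕ) (θ : ℝ), 1 ≤ L → (∀ l, 1 ≤ l → l ≤ L → 0 ≤ a l) →
    (∀ l, 1 ≤ l → l + 2 ≤ L → (1 + 4 / (l : ℝ)) * a (l + 2) ≤ a l) →
    (∀ l, 1 ≤ l → l ≤ L → a l * ((l : ℝ) ^ 2 * Real.sqrt l) ≤ 1.02 * a 1) →
    0.1 * a 1 * (1 - Real.cos θ) ≤
      ∑ l ∈ Finset.Icc 1 L, sg l * a l * (1 - Real.cos (l * θ))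

/-- **KPOS** (150 lines, uses APROP, BIN, PAIR).  Apply PAIR with `a l = al m q l`,
`θ = 2 π ε y`.  Let `ε = eps`, `N = Nq`.  From `50 L² N⁴ ≤ 5 ^ f (q+1)` and
`ε ≤ √2 (5/4) N 5 ^ (- f (q+1))` one has `L² ε ≤ 0.036`, so for `l ≤ L` `0 < π l ε < 1/2`.
`a l / a (l+2) = (b_l / b_(l+2)) ((l+2)/l) sin (π (l+2) ε) / sin (π l ε) ≥ ((l+2)/l)² (1 - y²/6)`,
`y = π (l+2) ε`, and `y²/6 ≤ 4/(l+2)²` (use `sin y ≥ y - y³/6`, `sin s ≤ s`), so it is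
`≥ ((l+2)² - 4)/l² = 1 + 4/l`.
`a l l² √l ≤ 1.02 a 1`: `sin (π l ε) ≥ π l ε (1 - (π l ε)²/6)`, `(π l ε)² ≤ 0.02`, `sin (π ε) ≤ π ε`.
Lower bound: `a 1 = b_1 / (N sin (π ε)) ≥ (1/(4N)) / (N π ε)`, `1 - cos (2 π u) ≥ 8 u²` for `|u| ≤ 1/2`,
`ε ≥ √2 N 5 ^ (- f (q+1))`; the product is `≥ 0.1 · 8 ε y² / (4 π N²) ≥ y² / (20 N 5 ^ f (q+1))`. -/
def S_KPOS : Prop :=
  ∀ m q L : ℕ, 1 ≤ m → 1 ≤ q → 1 ≤ L → 50 * L ^ 2 * (Nq m q) ^ 4 ≤ 5 ^ f m (q + 1) →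
    (∀ y : ℝ, 0 ≤ K m q L y) ∧
    (∀ y : ℝ, |eps m q * y| ≤ 1 / 2 →
      y ^ 2 / (20 * (5 : ℝ) ^ f m q * (5 : ℝ) ^ f m (q + 1)) ≤ K m q L y)

/-- **KUP** (80 lines, uses APROP).  As in KPOS `l ε ≤ 0.036` for `1 ≤ l ≤ L`, so `sin (π l ε) ≥ 2 l ε`,
`|sg| ≤ 1`, `b ≤ 1`, `0 ≤ al l ≤ 1 / (2 l² ε)`.  (i) `1 - cos s ≤ s²/2` gives that each term of `K m q L x`
is at most `π² ε x²`, and `L ε ≤ 0.036`.  (ii) `1 - cos ≤ 2`, `∑ 1/l² ≤ 2`. -/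
def S_KUP : Prop :=
  ∀ m q L : ℕ, 1 ≤ m → 50 * L ^ 2 * (Nq m q) ^ 4 ≤ 5 ^ f m (q + 1) →
    (∀ x : ℝ, |K m q L x| ≤ 10 * x ^ 2) ∧ (∀ y : ℝ, |K m q L y| ≤ 2 / eps m q)

/-- **WNORM** (60 lines, no dependence).  `w A t = e(-A D t) ((1 - A) + A e(D t))`, so
`‖w‖² = 1 - 4 A (1 - A) sin² (π D t)`; `1 - ‖w‖ ≥ (1 - ‖w‖²)/2` and `sin² (π s) ≥ 4 (dist s ℤ)²`.
Also `w A (-t)` is the conjugate of `w A t`, so `phi` is odd. -/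
def S_WNORM : Prop :=
  ∀ A t : ℝ, 0 < A → A < 1 → ‖w A t‖ ≤ 1 ∧
    (∀ δ : ℝ, 0 ≤ δ → (∀ p : ℤ, δ ≤ |D * t - p|) → 8 * A * (1 - A) * δ ^ 2 ≤ 1 - ‖w A t‖) ∧
    phi A (-t) = - phi A t

/-- **SER** (80 lines, no dependence).  For `‖z‖ < 1`, `z = i w`: with `Complex.logTaylor` and
`Complex.norm_log_sub_logTaylor_le`:
`log ‖1 - z‖ - log ‖1 + z‖ = Re (log (1 - z) - log (1 + z))`, the Taylor polynomials of degree `M` give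
`∑_{N ≤ M} - Re (z ^ N - (-z) ^ N) / N`, and for `z = i w` the `N`-th term is `(2 / N) sg N Im (w ^ N)`
(`i ^ N = i sg N` for odd `N`, the term is `0` for even `N`). Second bound: `‖1 ± i w‖ ∈ [1 - ‖w‖, 2]` and
`|phiM| ≤ 2 ∑_{N ≤ M} 1/N ≤ 2 (1 + log M)`. -/
def S_SER : Prop :=
  ∀ (A t : ℝ) (M : ℕ), 1 ≤ M → ‖w A t‖ < 1 →
    |phi A t - phiM A M t| ≤ 2 * ‖w A t‖ ^ (M + 1) / (1 - ‖w A t‖) ∧
    |phi A t - phiM A M t| ≤ 4 + 2 * Real.log M - Real.log (1 - ‖w A t‖)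

/-- **TAIL** (150 lines, uses DIO0, WNORM, SER).  `δ = 1 / R`, `M = R ^ 4`, `α = 8 A (1 - A)`,
`τ_k = D (x + k + 1/2)`.  If `dist (τ_k, ℤ) ≥ δ` then `‖w‖ ≤ 1 - α δ²`, and
`2 ‖w‖ ^ (M+1) / (1 - ‖w‖) ≤ 2 exp (- α δ² M) / (α δ²) ≤ 4 / (α³ δ⁶ M²) = 4 / (α³ R²)`
(`exp (-u) ≤ 2 / u²`), and the sum over `k < n` is `≤ C n / R`.  If the distance is `< δ`: the error is
`≤ 4 + 2 log M - log (α c² / (k+1)⁴) ≤ C (1 + log n + log R)`; two such `k < k'` satisfy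
`|D (k' - k) - p| < 2 δ` for an integer `p`, so `k' - k > R / 10` by DIO0; so there are at most
`10 n / R + 1` such `k < n`. -/
def S_TAIL : Prop :=
  ∀ A x : ℝ, 0 < A → A < 1 → Good x → ∃ C : ℝ, 0 ≤ C ∧ ∀ n R : ℕ, 1 ≤ n → 1 ≤ R →
    ∑ k ∈ Finset.range n, |phi A (x + k + 1 / 2) - phiM A (R ^ 4) (x + k + 1 / 2)| ≤
      C * ((n : ℝ) / R + 1) * (1 + Real.log n + Real.log R)

/-- **EXP** (80 lines, no dependence).  `Im (w ^ N) = ∑_i b A N i sin (2 π th t)` (binomial theorem), and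
`2 sin (π θ) ∑_{k < n} sin (2 π θ (x + k + 1/2)) = cos (2 π θ x) - cos (2 π θ (x + n))`.  The hypothesis is
that no frequency is an integer. -/
def S_EXP : Prop :=
  ∀ (A x : ℝ) (M n : ℕ), (∀ N i : ℕ, 1 ≤ N → N ≤ M → i ≤ N → Real.sin (Real.pi * th A N i) ≠ 0) →
    ∑ k ∈ Finset.range n, phiM A M (x + k + 1 / 2) =
      ∑ N ∈ Finset.Icc 1 M, ∑ i ∈ Finset.range (N + 1), 2 / (N : ℝ) * sg N * b A N i *
        ((Real.cos (2 * Real.pi * (th A N i * x)) - Real.cos (2 * Real.pi * (th A N i * (x + n)))) /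
          (2 * Real.sin (Real.pi * th A N i)))

/-- **SPLIT** (200 lines, uses APROP, DIO, EXP).  Split the pairs `(N, i)` in EXP.  The resonant pairs
are `(l Nq, l iq)`, `q < M`, `1 ≤ l ≤ Lf m q M` (different `(q, l)` give different pairs, as `iq / Nq` is
strictly increasing in `q`; `l ≤ Lf` iff `Adm l`, for `l ≥ 1`; `Nq ≤ M` implies `q < M`); there
`th = - l ε`, `sg (l Nq) = sg l` (`Nq ≡ 1 mod 4`), so their total is `- ∑_q (K (x + n) - K x)`.  On the other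
pairs `|sin (π th)| ≥ 2 dist (th, ℤ) ≥ 2 c / N⁹`, so each is at most `(2/N) b N⁹ / (2c)` in absolute
value, and `∑_i b = 1`.  (On resonant pairs `0 < l ε < 1/2`, so `sin (π th) ≠ 0`: see KPOS.) -/
def S_SPLIT : Prop :=
  ∀ m : ℕ, 1 ≤ m → ∃ C : ℝ, 0 ≤ C ∧ ∀ (x : ℝ) (n M : ℕ), 1 ≤ M →
    |∑ k ∈ Finset.range n, phiM (Am m) M (x + k + 1 / 2) +
      ∑ q ∈ Finset.range M, (K m q (Lf m q M) (x + n) - K m q (Lf m q M) x)| ≤ C * (M : ℝ) ^ 10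

/-- **PMAIN** (80 lines, uses APROP, KPOS, KUP, TAIL, SPLIT).  The bound for one `m`: combine, with
`M = R ^ 4`.  The terms `K x` are at most `10 x²` each (at most `M` of them), `K 0 (x + n) ≥ - 2 / eps m 0`, all
other `K q (x + n)` are `≥ 0` (also if `Lf = 0`), and for the given `q` KPOS gives the square; there
`Lf m q M ≥ 1` because `50 Nq⁴ ≤ 5 ^ f (q+1)` and `Nq ≤ M`, and `|eps (x + n)| ≤ 1/2`. -/
def S_PMAIN : Prop :=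
  ∀ (m : ℕ) (x : ℝ), 1 ≤ m → Good x → ∃ C : ℝ, 0 ≤ C ∧ ∀ n R : ℕ, 1 ≤ n → 1 ≤ R →
    S (Am m) x n ≤ C * ((R : ℝ) ^ 40 + ((n : ℝ) / R + 1) * (1 + Real.log n + Real.log R)) ∧
    ∀ q : ℕ, 1 ≤ q → 5 ^ f m q ≤ R ^ 4 → 4 * ((n : ℝ) + |x|) * 5 ^ f m q ≤ 5 ^ f m (q + 1) →
      S (Am m) x n ≤ C * ((R : ℝ) ^ 40 + ((n : ℝ) / R + 1) * (1 + Real.log n + Real.log R)) -
        (x + n) ^ 2 / (20 * (5 : ℝ) ^ f m q * (5 : ℝ) ^ f m (q + 1))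

/-- **SEQ** (100 lines, no dependence, natural numbers only).  For every large `T` there is an exponent
`f m q = m 1024 ^ q` between `Y` and `(129/128) Y`, `Y = ⌈(T + 3) / 1023⌉`: take `q` with
`128 · 1024 ^ q ≤ Y < 128 · 1024 ^ (q+1)`, `m = ⌈Y / 1024 ^ q⌉ ∈ [128, 131072]`; `q ≥ 1` if
`Y ≥ 131072`. Then `1023 f ≥ T + 3`, i.e. `f (q+1) = 1024 f ≥ f + T + 3`, and
`88 · 1025 f ≤ 88 · 1025 · (129/128) ((T + 3)/1023 + 1) ≤ 89 T + C` (`88·1025·129/(128·1023) < 88.87`), and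
`f ≤ T / 100`. -/
def S_SEQ : Prop :=
  ∃ C T₀ : ℕ, ∀ T : ℕ, T₀ ≤ T → ∃ m q : ℕ, 128 ≤ m ∧ m ≤ 131072 ∧ 1 ≤ q ∧
    f m q + T + 3 ≤ f m (q + 1) ∧ 88 * (f m q + f m (q + 1)) ≤ 89 * T + C ∧ 100 * f m q ≤ T

/-- **FINAL** (150 lines, uses PMAIN, SEQ).  Let `5 ^ T ≤ n < 5 ^ (T+1)`, `T = 88 a + r`, `r < 88`,
`R = 5 ^ (2 a)`.  Take `m, q` from SEQ; `5 ^ f q ≤ R ^ 4 = 5 ^ (8 a)`, and `4 (n + |x|) 5 ^ f q ≤
5 ^ (T + 3 + f q) ≤ 5 ^ f (q+1)` for `n ≥ |x|`.  Error terms: `R ^ 40 = 5 ^ (80 a)`,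
`n / R ≤ 5 ^ (86 a + 88)`, `log n, log R ≤ 2 (T + 1)`.  Main term:
`(x + n)² / (20 · 5 ^ (f q + f (q+1))) ≥ (n/2)² / (20 · 5 ^ ((89 T + C)/88)) ≥ c 5 ^ (87 a)` (multiply
exponents by `88`: `2 T - (89 T + C)/88 = (87 T - C)/88 ≥ 87 a - C`).  As `5 ^ (86 a) (a + 1)` is
`o (5 ^ (87 a))`, the sum over all `m` is `≤ - 2 log n` for large `n`. -/
def S_FINAL : Prop :=
  ∀ x : ℝ, Good x → ∃ n₀ : ℕ, ∀ n : ℕ, n₀ ≤ n →
    ∑ m ∈ Finset.Icc 128 131072, S (Am m) x n ≤ - 2 * Real.log n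

/-- **GOOD** (100 lines, no dependence).  Borel-Cantelli.  For `k ∈ ℤ` the set of the `x ∈ [j, j+1]` with
`dist (D (x + k + 1/2), ℤ) < r ≤ 1/4` is contained in at most `4` intervals of length `√2 r`.  With
`r = 1 / (|k| + 1) ^ 2` the measures are summable, so for almost all `x` only finitely many `k` are bad, and
for the other `k` the distance is positive for almost all `x`.  `Good (-x)`:
`D (-x + k + 1/2) = - D (x - k - 1/2)`. -/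
def S_GOOD : Prop := ∀ᵐ x : ℝ, Good x ∧ Good (-x)

/-- the polynomials `a`, `b` of the equation (as functions) -/
def pa (x : ℝ) : ℂ := ∏ m ∈ Finset.Icc 128 131072, (1 + Complex.I * w (Am m) (x - 1 / 2))

/-- the polynomials `a`, `b` of the equation (as functions) -/
def pb (x : ℝ) : ℂ := ∏ m ∈ Finset.Icc 128 131072, (1 - Complex.I * w (Am m) (x - 1 / 2))

/-- **L2** (250 lines; uses WNORM, APROP, GOOD, FINAL).  There is a nonzero `g ∈ L²(ℝ)` with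
`pa (x) g (x) = pb (x) g (x - 1)` almost everywhere.  Proof.  For `x ∈ [0, 1)` good (and `-x` good) all
`pa (x + n)`, `pb (x + n)`, `n ∈ ℤ`, are nonzero (`‖w‖ < 1`, WNORM).  Let `F = pb / pa`,
`G (x, n) = ∏_{k < n} F (x + k + 1)` for `n ≥ 0` and `G (x, -n) = ∏_{k < n} (F (x - k))⁻¹`.  Then
`‖G (x, n)‖ = exp (∑_m S (Am m) x n) ≤ n⁻²` for large `n`, and, `phi` being odd,
`‖G (x, -n)‖ = exp (∑_m S (Am m) (-x) n) ≤ n⁻²`.  Let `V (x) = ∑_{n ∈ ℤ} ‖G (x, n)‖²` (finite for almost all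
`x ∈ [0,1)`, measurable), `g (x + n) = G (x, n) / √(1 + V x)`.  `∫ ‖g‖² ≤ 1`, `g ≠ 0` on `[0, 1)`
(there `g = 1/√(1 + V)`). -/
def S_L2 : Prop :=
  ∃ g : ℝ → ℂ, MeasureTheory.MemLp g 2 MeasureTheory.volume ∧
    ¬ (g =ᵐ[MeasureTheory.volume] 0) ∧
    (fun x => pa x * g x - pb x * g (x - 1)) =ᵐ[MeasureTheory.volume] 0

/-- **TRIG** (80 lines, no dependence).  `pa`, `pb` are trigonometric polynomials: use the group algebra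
`AddMonoidAlgebra ℂ ℝ` with the ring homomorphism `single β c ↦ c exp (2 π i β x)`; the value at a
point where `pa ≠ 0` (e.g. `x = 1/2 + 1/4`, or any `x` with `‖w‖ < 1` for all `m`; `pa` has the
value `∏ (1 + i w)` and `‖w‖ < 1` if `D (x - 1/2) ∉ ℤ`) shows that not all coefficients vanish. -/
def S_TRIG : Prop :=
  ∃ u v : ℝ →₀ ℂ, u ≠ 0 ∧
    (∀ x : ℝ, pa x = ∑ β ∈ u.support, u β * Complex.exp (2 * (Real.pi : ℂ) * Complex.I * ((β * x : ℝ) : ℂ))) ∧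
    (∀ x : ℝ, pb x = ∑ β ∈ v.support, v β * Complex.exp (2 * (Real.pi : ℂ) * Complex.I * ((β * x : ℝ) : ℂ)))

/-- **HRT** (120 lines, uses L2, TRIG).  Transfer to `Fin 1 → ℝ` (`MeasureTheory.volume_preserving_funUnique`
or `volume_preserving_piUnique`); points `(0, β)`, `β ∈ supp u`, with coefficient `u β`, and
`(1, β)`, `β ∈ supp v`, with coefficient `- v β`. This is the frozen statement `S04652` (case `n = 1`). -/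
def S_HRT : Prop :=
    ¬ (∀ n : ℕ, ∀ g : (Fin n → ℝ) → ℂ,
      MeasureTheory.MemLp g 2 MeasureTheory.volume →
      ¬ (g =ᵐ[MeasureTheory.volume] 0) →
      ∀ (s : Finset ((Fin n → ℝ) × (Fin n → ℝ))) (c : (Fin n → ℝ) × (Fin n → ℝ) → ℂ),
        (fun t : Fin n → ℝ =>
            ∑ p ∈ s, c p *
              (Complex.exp (2 * (Real.pi : ℂ) * Complex.I * ((∑ i, p.2 i * t i : ℝ) : ℂ)) *
                g (t - p.1))) =ᵐ[MeasureTheory.volume] 0 →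
        ∀ p ∈ s, c p = 0)

end

end Pool.Agent.Run7.h325.HRT
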