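import Pool.Agent.Run7.h325.HRT.L2
import Pool.Agent.Run7.h216.HRT.APROP
import Pool.Agent.Run7.h216.HRT.TAIL
import Pool.Agent.Run7.h222.HRT.SER
import Pool.Agent.Run7.h222.HRT.WNORM
import Pool.Agent.Run7.h24.HRT.EXP
import Pool.Agent.Run7.h321.HRT.PMAIN
import Pool.Agent.Run7.h382.HRT.SEQ
import Pool.Agent.Run7.h431.HRT.BIN1
import Pool.Agent.Run7.h590.HRT.DIO0
import Pool.Agent.Run7.h590.HRT.HRT
import Pool.Agent.Run7.h590.HRT.TRIG
import Pool.Agent.Run7.h594.HRT.KUP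
import Pool.Agent.Run7.h688.HRT.KPOS
import Pool.Agent.Run7.h688.HRT.SPLIT
import Pool.Agent.Run7.h882.HRT.FINAL
import Pool.Agent.Run7.h890.HRT.DIO
import Pool.Agent.Run7.h892.HRT.Good
import Pool.Agent.Run7.h892.HRT.Pair
import Pool.Agent.Run7.h890.HRT.BIN2

set_option autoImplicit false

/-!
# The HRT conjecture is false
-/

namespace Pool.Agent.Run7.h325.HRT

/-- The HRT conjecture is false. -/
theorem main : S_HRT := by
  have hA := Pool.Agent.Run7.h216.HRT.t_APROP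
  have hB : S_BIN := fun m q hm hq =>
    ⟨Pool.Agent.Run7.h431.HRT.BIN1.t_BIN1 hA m q hm hq, Pool.Agent.Run7.h890.HRT.BIN2.t_BIN2 hA m q hm hq⟩
  have hK := Pool.Agent.Run7.h688.HRT.t_KPOS hA hB Pool.Agent.Run7.h892.HRT.pair
  have hD := Pool.Agent.Run7.h890.HRT.DIO.t_DIO Pool.Agent.Run7.h590.HRT.dio0 hA
  have hS := Pool.Agent.Run7.h688.HRT.t_SPLIT hA hD _root_.Run7.h24.HRT.t_EXP
  have hT := Pool.Agent.Run7.h216.HRT.t_TAIL Pool.Agent.Run7.h590.HRT.dio0 _root_.Run7.h222.HRT.t_WNORM _root_.Run7.h222.HRT.t_SER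
  have hP := Pool.Agent.Run7.h321.HRT.pmain hA hK (Pool.Agent.Run7.h594.HRT.t_KUP hA) hT hS
  have hF := Pool.Agent.Run7.h882.HRT.FINAL hP _root_.Run7.h382.HRT.t_SEQ
  exact Pool.Agent.Run7.h590.HRT.hrt (t_L2 _root_.Run7.h222.HRT.t_WNORM hA Pool.Agent.Run7.h892.HRT.good hF) Pool.Agent.Run7.h590.HRT.trig

end Pool.Agent.Run7.h325.HRT
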